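import Mathlib

/-! An involution of a Cantor cube without invariant dense Sigma-subset. -/

set_option autoImplicit false

namespace Pool.Agent.H13.Vald

open Set Filter Topology Sum

abbrev T : Type := ℝ ⊕ (ℝ × ℝ)
abbrev KK : Type := T → Bool

noncomputable def c (z : KK) (i j : ℝ) : Bool := decide (i < j) && (z (inl i) && !z (inl j))

noncomputable def hh (z : KK) : KK
  | inl i => z (inl i)
  | inr p => xor (z (inr p)) (c z p.1 p.2)

theorem hh_inl (z : KK) (i : ℝ) : hh z (inl i) = z (inl i) := rfl
theorem hh_inr (z : KK) (p : ℝ × ℝ) : hh z (inr p) = xor (z (inr p)) (c z p.1 p.2) := rfl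

theorem hh_cont : Continuous hh := by
  refine continuous_pi fun t => ?_
  cases t with
  | inl i => exact continuous_apply (inl i)
  | inr p =>
    have h1 : Continuous fun z : KK => (z (inr p), z (inl p.1), z (inl p.2)) := by fun_prop
    have h2 : Continuous fun q : Bool × Bool × Bool =>
        xor q.1 (decide (p.1 < p.2) && (q.2.1 && !q.2.2)) := continuous_of_discreteTopology
    exact h2.comp h1

theorem hh_inv (z : KK) : hh (hh z) = z := by
  funext t
  cases t with
  | inl i => rfl
  | inr p =>
    rw [hh_inr, hh_inr]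
    have : c (hh z) p.1 p.2 = c z p.1 p.2 := rfl
    rw [this, Bool.xor_assoc, Bool.xor_self, Bool.xor_false]

/-- continuous functions on the cube depend on countably many coordinates -/
theorem depends (f : KK → ℝ) (hf : Continuous f) :
    ∃ D : Set T, D.Countable ∧ ∀ z z' : KK, (∀ t ∈ D, z t = z' t) → f z = f z' := by
  have hfin : ∀ n : ℕ, ∃ S : Finset T, ∀ z z' : KK, (∀ t ∈ S, z t = z' t) →
      |f z - f z'| < 1 / ((n : ℝ) + 1) := by
    intro n
    have hε : (0 : ℝ) < 1 / (2 * ((n : ℝ) + 1)) := by positivity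
    have hnb : ∀ z : KK, ∃ S : Finset T, ∀ z' : KK, (∀ t ∈ S, z' t = z t) →
        |f z' - f z| < 1 / (2 * ((n : ℝ) + 1)) := by
      intro z
      have ho : IsOpen (f ⁻¹' Metric.ball (f z) (1 / (2 * ((n : ℝ) + 1)))) :=
        Metric.isOpen_ball.preimage hf
      obtain ⟨S, u, hu, hsub⟩ := isOpen_pi_iff.1 ho z (Metric.mem_ball_self hε)
      refine ⟨S, fun z' hz' => ?_⟩
      have : z' ∈ (S : Set T).pi u := by
        intro t ht
        rw [hz' t ht]
        exact (hu t ht).2
      have h2 := hsub this
      rw [mem_preimage, Metric.mem_ball, Real.dist_eq] at h2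
      exact h2
    choose S hS using hnb
    have hopen : ∀ z : KK, {z' : KK | ∀ t ∈ S z, z' t = z t} ∈ 𝓝 z := by
      intro z
      have : {z' : KK | ∀ t ∈ S z, z' t = z t} = (S z : Set T).pi fun t => {z t} := by
        ext z'
        simp [Set.mem_pi]
      rw [this]
      exact (isOpen_set_pi (Finset.finite_toSet _) fun t _ => isOpen_discrete _).mem_nhds
        (fun t _ => rfl)
    obtain ⟨F, -, hF⟩ := isCompact_univ.elim_nhds_subcover (fun z => {z' : KK | ∀ t ∈ S z, z' t = z t})
      (fun z _ => hopen z)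
    classical
    refine ⟨F.biUnion S, fun z z' hzz' => ?_⟩
    have hz := hF (mem_univ z)
    rw [mem_iUnion₂] at hz
    obtain ⟨z0, hz0F, hz0⟩ := hz
    have h1 := hS z0 z hz0
    have h2 := hS z0 z' (fun t ht => by
      rw [← hzz' t (Finset.mem_biUnion.2 ⟨z0, hz0F, ht⟩)]
      exact hz0 t ht)
    have e : (1 : ℝ) / ((n : ℝ) + 1) = 1 / (2 * ((n : ℝ) + 1)) + 1 / (2 * ((n : ℝ) + 1)) := by
      field_simp
      norm_num
    rw [e]
    rw [abs_lt] at h1 h2 ⊢
    constructor <;> linarith [h1.1, h1.2, h2.1, h2.2]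
  choose S hS using hfin
  refine ⟨⋃ n, (S n : Set T), countable_iUnion fun n => Finset.countable_toSet _, ?_⟩
  intro z z' h
  by_contra hne
  have hpos : 0 < |f z - f z'| := abs_pos.2 (sub_ne_zero.2 hne)
  obtain ⟨n, hn⟩ := exists_nat_one_div_lt hpos
  have := hS n z z' (fun t ht => h t (mem_iUnion.2 ⟨n, ht⟩))
  linarith

theorem agree (Z : Set KK) (hZ : IsClosed Z) (M : Set T) (z0 : KK)
    (h : ∀ S : Finset T, (S : Set T) ⊆ M → ∃ z ∈ Z, ∀ t ∈ S, z t = z0 t) :
    ∃ z ∈ Z, ∀ t ∈ M, z t = z0 t := by
  have h1 := hZ.isCompact.inter_iInter_nonempty (fun t : M => {z : KK | z t = z0 t})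
    (fun t => isClosed_eq (continuous_apply (t : T)) continuous_const) (by
      intro u
      obtain ⟨z, hz, hz2⟩ := h (u.map ⟨Subtype.val, Subtype.val_injective⟩) (by
        intro t ht
        rw [Finset.mem_coe, Finset.mem_map] at ht
        obtain ⟨t', _, rfl⟩ := ht
        exact t'.2)
      refine ⟨z, hz, ?_⟩
      rw [mem_iInter₂]
      intro t ht
      exact hz2 t (Finset.mem_map.2 ⟨t, ht, rfl⟩))
  obtain ⟨z, hz, hz2⟩ := h1
  rw [mem_iInter] at hz2
  exact ⟨z, hz, fun t ht => hz2 ⟨t, ht⟩⟩

theorem closing (G : Finset T → Set T) (hG : ∀ S, (G S).Countable) (M0 : Set T)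
    (hM0 : M0.Countable) :
    ∃ M : Set T, M.Countable ∧ M0 ⊆ M ∧ ∀ S : Finset T, (S : Set T) ⊆ M → G S ⊆ M := by
  let step : Set T → Set T := fun M => M ∪ ⋃ S ∈ {S : Finset T | (S : Set T) ⊆ M}, G S
  have hfs : ∀ M : Set T, M.Countable → {S : Finset T | (S : Set T) ⊆ M}.Countable := by
    intro M hM
    haveI := hM.to_subtype
    have : {S : Finset T | (S : Set T) ⊆ M} ⊆
        range fun S : Finset M => S.map ⟨Subtype.val, Subtype.val_injective⟩ := by
      intro S hS
      classical
      refine ⟨S.subtype (· ∈ M), ?_⟩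
      ext t
      simp only [Finset.mem_map, Finset.mem_subtype, Function.Embedding.coeFn_mk, Subtype.exists,
        exists_and_left, exists_prop, exists_eq_right_right]
      exact ⟨fun h => h.1, fun h => ⟨h, hS h⟩⟩
    exact (countable_range _).mono this
  have hstep : ∀ M : Set T, M.Countable → (step M).Countable := fun M hM =>
    hM.union ((hfs M hM).biUnion fun S _ => hG S)
  let M : ℕ → Set T := fun n => step^[n] M0
  have hMs : ∀ n, M (n + 1) = step (M n) := fun n => Function.iterate_succ_apply' _ _ _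
  have hMc : ∀ n, (M n).Countable := by
    intro n
    induction n with
    | zero => exact hM0
    | succ n ih => rw [hMs]; exact hstep _ ih
  have hmono : Monotone M := monotone_nat_of_le_succ fun n => by
    rw [hMs]; exact subset_union_left
  refine ⟨⋃ n, M n, countable_iUnion hMc, subset_iUnion M 0, ?_⟩
  intro S hS
  have : ∃ n, (S : Set T) ⊆ M n := by
    classical
    induction S using Finset.induction_on with
    | empty => exact ⟨0, by simp⟩
    | insert t S _ ih =>
      obtain ⟨n, hn⟩ := ih (fun x hx => hS (by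
        rw [Finset.coe_insert]; exact mem_insert_of_mem _ hx))
      have ht := hS (show t ∈ ((insert t S : Finset T) : Set T) by simp)
      rw [mem_iUnion] at ht
      obtain ⟨m, hm⟩ := ht
      refine ⟨max n m, ?_⟩
      intro x hx
      rw [Finset.coe_insert, mem_insert_iff] at hx
      rcases hx with rfl | hx
      · exact hmono (le_max_right _ _) hm
      · exact hmono (le_max_left _ _) (hn hx)
  obtain ⟨n, hn⟩ := this
  intro x hx
  refine mem_iUnion.2 ⟨n + 1, ?_⟩
  rw [hMs]
  exact Or.inr (mem_biUnion (show S ∈ {S : Finset T | (S : Set T) ⊆ M n} from hn) hx)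

/-- coordinates needed by a coordinate -/
def need : T → Set T
  | inl _ => ∅
  | inr p => {inl p.1, inl p.2}

theorem need_countable (t : T) : (need t).Countable := by
  cases t with
  | inl i => exact countable_empty
  | inr p =>
    show ({inl p.1, inl p.2} : Set T).Countable
    exact (countable_singleton _).insert _

theorem main (A : Set KK) (hd : Dense A) (hinv : ∀ x, hh x ∈ A ↔ x ∈ A) (Γ : Type)
    (φ : KK → Γ → ℝ) (hφ : Continuous φ) (hinj : Function.Injective φ)
    (hA : A = φ ⁻¹' {x : Γ → ℝ | {γ : Γ | x γ ≠ 0}.Countable}) : False := by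
  classical
  have hdep := fun γ => depends (fun z => φ z γ) ((continuous_apply γ).comp hφ)
  choose D hDc hD using hdep
  have hex : ∀ S P : Finset T, ∃ a ∈ A, ∀ t ∈ S, a t = decide (t ∈ P) := by
    intro S P
    have ho : IsOpen ((S : Set T).pi fun t => ({decide (t ∈ P)} : Set Bool)) :=
      isOpen_set_pi (Finset.finite_toSet _) fun t _ => isOpen_discrete _
    obtain ⟨a, ha, haA⟩ := hd.inter_open_nonempty _ ho ⟨fun t => decide (t ∈ P), fun t _ => rfl⟩
    exact ⟨a, haA, fun t ht => ha t ht⟩
  choose a haA haS using hex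
  have hsupp : ∀ z ∈ A, {γ | φ z γ ≠ 0}.Countable := by
    intro z hz
    rw [hA] at hz
    exact hz
  let G : Finset T → Set T := fun S =>
    (⋃ P ∈ S.powerset, ⋃ γ ∈ {γ | φ (a S P) γ ≠ 0} ∪ {γ | φ (hh (a S P)) γ ≠ 0}, D γ) ∪
      ⋃ t ∈ S, need t
  have hG : ∀ S, (G S).Countable := by
    intro S
    refine Countable.union ?_ ?_
    · refine (Finset.countable_toSet S.powerset).biUnion fun P _ => ?_
      refine Countable.biUnion ?_ fun γ _ => hDc γ
      exact (hsupp _ (haA S P)).union (hsupp _ ((hinv _).2 (haA S P)))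
    · exact (Finset.countable_toSet S).biUnion fun t _ => need_countable t
  obtain ⟨M, hMc, hM0, hMG⟩ := closing G hG (range fun q : ℚ => (inl (q : ℝ) : T))
    (countable_range _)
  have hrat : ∀ q : ℚ, (inl (q : ℝ) : T) ∈ M := fun q => hM0 ⟨q, rfl⟩
  have hneed : ∀ p : ℝ × ℝ, (inr p : T) ∈ M → (inl p.1 : T) ∈ M ∧ (inl p.2 : T) ∈ M := by
    intro p hp
    have h1 := hMG {inr p} (by simpa using hp)
    have h2 : need (inr p) ⊆ M := by
      refine Subset.trans ?_ h1
      intro x hx
      exact Or.inr (mem_biUnion (show (inr p : T) ∈ (({inr p} : Finset T) : Set T) by simp) hx)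
    exact ⟨h2 (Or.inl rfl), h2 (Or.inr rfl)⟩
  let Q : Set KK := {z | ∃ S P : Finset T, (S : Set T) ⊆ M ∧ P ⊆ S ∧ (z = a S P ∨ z = hh (a S P))}
  have hQh : ∀ z ∈ Q, hh z ∈ Q := by
    rintro z ⟨S, P, hS, hP, rfl | rfl⟩
    · exact ⟨S, P, hS, hP, Or.inr rfl⟩
    · exact ⟨S, P, hS, hP, Or.inl (hh_inv _)⟩
  have hclh : ∀ z ∈ closure Q, hh z ∈ closure Q := fun z hz =>
    map_mem_closure hh_cont hz hQh
  have hQD : ∀ z ∈ Q, ∀ γ, φ z γ ≠ 0 → D γ ⊆ M := by
    rintro z ⟨S, P, hS, hP, hz⟩ γ hγ
    refine Subset.trans ?_ (hMG S hS)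
    intro x hx
    refine Or.inl ?_
    refine mem_biUnion (Finset.mem_coe.2 (Finset.mem_powerset.2 hP)) ?_
    refine mem_biUnion (x := γ) ?_ hx
    rcases hz with rfl | rfl
    · exact Or.inl hγ
    · exact Or.inr hγ
  -- injectivity on the closure
  have hclinj : ∀ z ∈ closure Q, ∀ z' ∈ closure Q, (∀ t ∈ M, z t = z' t) → z = z' := by
    intro z hz z' hz' hag
    apply hinj
    funext γ
    by_cases hγ : ∃ q ∈ Q, φ q γ ≠ 0
    · obtain ⟨q, hq, hqγ⟩ := hγ
      have hsub := hQD q hq γ hqγ
      exact hD γ z z' fun t ht => hag t (hsub ht)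
    · push Not at hγ
      have hcl : IsClosed {z : KK | φ z γ = 0} :=
        isClosed_eq ((continuous_apply γ).comp hφ) continuous_const
      have hs : closure Q ⊆ {z : KK | φ z γ = 0} := closure_minimal (fun q hq => hγ q hq) hcl
      have h1 : φ z γ = 0 := hs hz
      have h2 : φ z' γ = 0 := hs hz'
      rw [h1, h2]
  -- surjectivity
  have hsurj : ∀ z0 : KK, ∃ z ∈ closure Q, ∀ t ∈ M, z t = z0 t := by
    intro z0
    refine agree _ isClosed_closure M z0 fun S hS => ?_
    refine ⟨a S (S.filter fun t => z0 t = true), subset_closure ⟨S, _, hS, Finset.filter_subset _ _,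
      Or.inl rfl⟩, fun t ht => ?_⟩
    rw [haS S _ t ht]
    by_cases h : z0 t = true
    · simp [h, ht]
    · simp [h]
  -- monotonicity
  have hmono : ∀ z ∈ closure Q, (∀ i j : ℝ, (inl i : T) ∈ M → (inl j : T) ∈ M → i < j →
      z (inl i) = true → z (inl j) = true) → ∀ i j : ℝ, i < j → z (inl i) = true →
      z (inl j) = true := by
    intro z hz hzM i j hij hi
    have hfix : hh z = z := by
      refine hclinj _ (hclh z hz) z hz fun t ht => ?_
      cases t with
      | inl k => rfl
      | inr p =>
        obtain ⟨h1, h2⟩ := hneed p ht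
        rw [hh_inr]
        have : c z p.1 p.2 = false := by
          unfold c
          by_cases hp : p.1 < p.2
          · by_cases hz1 : z (inl p.1) = true
            · rw [hzM p.1 p.2 h1 h2 hp hz1]
              simp
            · rw [Bool.not_eq_true] at hz1
              rw [hz1]
              simp
          · simp [hp]
        rw [this, Bool.xor_false]
    by_contra hj
    rw [Bool.not_eq_true] at hj
    have h1 := congrFun hfix (inr (i, j))
    rw [hh_inr] at h1
    have h2 : c z i j = true := by
      unfold c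
      simp [hij, hi, hj]
    simp only [h2] at h1
    cases h3 : z (inr (i, j)) <;> rw [h3] at h1 <;> simp at h1
  -- a real number outside
  obtain ⟨i, hi⟩ : ∃ i : ℝ, (inl i : T) ∉ M := by
    by_contra hcon
    push Not at hcon
    have h1 : ((inl : ℝ → T) ⁻¹' M).Countable := hMc.preimage inl_injective
    have h2 : ((inl : ℝ → T) ⁻¹' M) = univ := eq_univ_of_forall hcon
    rw [h2] at h1
    exact not_countable_univ h1
  let w : KK := Sum.elim (fun j => decide (i < j)) (fun _ => false)
  -- from the right
  obtain ⟨z, ⟨hzQ, hzi⟩, hzw⟩ : ∃ z ∈ closure Q ∩ {z : KK | z (inl i) = false},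
      ∀ t ∈ M, z t = w t := by
    refine agree _ (isClosed_closure.inter (isClosed_eq (continuous_apply _) continuous_const)) M w ?_
    intro S hS
    have hev : ∀ᶠ r in 𝓝[>] i, ∀ t ∈ S, ∀ j, t = inl j → i < j → r < j := by
      refine (Finset.eventually_all S).2 fun t _ => ?_
      cases t with
      | inl k =>
        by_cases hk : i < k
        · filter_upwards [(eventually_lt_nhds hk).filter_mono nhdsWithin_le_nhds] with r hr j hj _
          cases hj
          exact hr
        · refine Eventually.of_forall fun r j hj hij => ?_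
          cases hj
          exact absurd hij hk
      | inr p => exact Eventually.of_forall fun r j hj _ => by cases hj
    obtain ⟨u, hu, hus⟩ := mem_nhdsGT_iff_exists_Ioo_subset.1 hev
    obtain ⟨r, hr1, hr2⟩ := exists_rat_btwn (show i < u from hu)
    have hr := hus ⟨hr1, hr2⟩
    obtain ⟨z, hzQ, hz⟩ := hsurj (Sum.elim (fun j => decide ((r : ℝ) < j)) (fun _ => false))
    have hm := hmono z hzQ (by
      intro k l hk hl hkl hzk
      rw [hz _ hk] at hzk
      rw [hz _ hl]
      simp only [Sum.elim_inl, decide_eq_true_eq] at hzk ⊢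
      exact hzk.trans hkl)
    refine ⟨z, ⟨hzQ, ?_⟩, fun t ht => ?_⟩
    · show z (inl i) = false
      by_contra hc
      rw [Bool.not_eq_false] at hc
      have h1 := hm i r hr1 hc
      rw [hz _ (hrat r)] at h1
      simp at h1
    · rw [hz t (hS ht)]
      cases t with
      | inl j =>
        show decide ((r : ℝ) < j) = decide (i < j)
        rw [decide_eq_decide]
        exact ⟨fun h => hr1.trans h, fun h => hr (inl j) ht j rfl h⟩
      | inr p => rfl
  -- from the left
  obtain ⟨z', ⟨hzQ', hzi'⟩, hzw'⟩ : ∃ z ∈ closure Q ∩ {z : KK | z (inl i) = true},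
      ∀ t ∈ M, z t = w t := by
    refine agree _ (isClosed_closure.inter (isClosed_eq (continuous_apply _) continuous_const)) M w ?_
    intro S hS
    have hev : ∀ᶠ r in 𝓝[<] i, ∀ t ∈ S, ∀ j, t = inl j → j < i → j < r := by
      refine (Finset.eventually_all S).2 fun t _ => ?_
      cases t with
      | inl k =>
        by_cases hk : k < i
        · filter_upwards [(eventually_gt_nhds hk).filter_mono nhdsWithin_le_nhds] with r hr j hj _
          cases hj
          exact hr
        · refine Eventually.of_forall fun r j hj hij => ?_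
          cases hj
          exact absurd hij hk
      | inr p => exact Eventually.of_forall fun r j hj _ => by cases hj
    obtain ⟨u, hu, hus⟩ := mem_nhdsLT_iff_exists_Ioo_subset.1 hev
    obtain ⟨r, hr1, hr2⟩ := exists_rat_btwn (show u < i from hu)
    have hr := hus ⟨hr1, hr2⟩
    obtain ⟨z, hzQ, hz⟩ := hsurj (Sum.elim (fun j => decide ((r : ℝ) ≤ j)) (fun _ => false))
    have hm := hmono z hzQ (by
      intro k l hk hl hkl hzk
      rw [hz _ hk] at hzk
      rw [hz _ hl]
      simp only [Sum.elim_inl, decide_eq_true_eq] at hzk ⊢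
      exact hzk.trans hkl.le)
    refine ⟨z, ⟨hzQ, ?_⟩, fun t ht => ?_⟩
    · refine hm r i hr2 ?_
      rw [hz _ (hrat r)]
      simp
    · rw [hz t (hS ht)]
      cases t with
      | inl j =>
        show decide ((r : ℝ) ≤ j) = decide (i < j)
        rw [decide_eq_decide]
        constructor
        · intro h
          rcases lt_trichotomy i j with h1 | h1 | h1
          · exact h1
          · exfalso
            apply hi
            rw [h1]
            exact hS ht
          · exact absurd (hr (inl j) ht j rfl h1) (not_lt.2 h)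
        · intro h
          exact hr2.le.trans h.le
      | inr p => rfl
  have heq : z = z' := hclinj z hzQ z' hzQ' fun t ht => by rw [hzw t ht, hzw' t ht]
  have h1 : z (inl i) = false := hzi
  have h2 : z' (inl i) = true := hzi'
  rw [heq, h2] at h1
  exact absurd h1 (by simp)

theorem valdivia : ∃ A : Set KK, Dense A ∧ ∃ (Γ : Type) (φ : KK → (Γ → ℝ)),
    Topology.IsEmbedding φ ∧ A = φ ⁻¹' {x : Γ → ℝ | {γ : Γ | x γ ≠ 0}.Countable} := by
  classical
  let φ : KK → (T → ℝ) := fun z t => if z t then 1 else 0
  have hφ : Continuous φ := by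
    refine continuous_pi fun t => ?_
    have h2 : Continuous fun b : Bool => (if b then (1 : ℝ) else 0) := continuous_of_discreteTopology
    exact h2.comp (continuous_apply t)
  have hinj : Function.Injective φ := by
    intro z z' h
    funext t
    have := congrFun h t
    simp only [φ] at this
    cases hz : z t <;> cases hz' : z' t <;> simp [hz, hz'] at this ⊢
  refine ⟨_, ?_, T, φ, (hφ.isClosedEmbedding hinj).isEmbedding, rfl⟩
  intro z
  rw [mem_closure_iff]
  intro O hO hzO
  obtain ⟨S, u, hu, hsub⟩ := isOpen_pi_iff.1 hO z hzO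
  refine ⟨fun t => if t ∈ S then z t else false, hsub ?_, ?_⟩
  · intro t ht
    have ht' : t ∈ S := ht
    simp only [ht', if_true]
    exact (hu t ht').2
  · show {t | φ (fun t => if t ∈ S then z t else false) t ≠ 0}.Countable
    refine (Finset.countable_toSet S).mono ?_
    intro t ht
    by_contra hc
    apply ht
    have hc' : t ∉ S := hc
    simp [φ, hc']

end Pool.Agent.H13.Vald
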